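import Pool.Agent.V7H32.MZ.Dim

/-!
# Words in the letters 2 and 3
-/

set_option autoImplicit false

namespace Pool.Agent.V7H32.MH

open Pool.Agent.V7H32.MZ

/-- The letters are `2` and `3`. -/
def IsWord (l : List ℕ) : Prop := ∀ x ∈ l, x = 2 ∨ x = 3

lemma IsWord.nil : IsWord [] := fun _ h => absurd h List.not_mem_nil

lemma isWord_cons {x : ℕ} {l : List ℕ} : IsWord (x :: l) ↔ (x = 2 ∨ x = 3) ∧ IsWord l := by
  unfold IsWord
  simp

lemma isWord_append {l l' : List ℕ} : IsWord (l ++ l') ↔ IsWord l ∧ IsWord l' := by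
  unfold IsWord
  constructor
  · intro h
    exact ⟨fun x hx => h x (List.mem_append_left _ hx), fun x hx => h x (List.mem_append_right _ hx)⟩
  · rintro ⟨h1, h2⟩ x hx
    rcases List.mem_append.1 hx with h | h
    · exact h1 x h
    · exact h2 x h

/-- The words of weight `n`. -/
def words : ℕ → Finset (List ℕ)
  | 0 => {[]}
  | 1 => ∅
  | 2 => {[2]}
  | n + 3 => (words (n + 1)).image (fun l => 2 :: l) ∪ (words n).image (fun l => 3 :: l)

lemma mem_words (n : ℕ) : ∀ l : List ℕ, l ∈ words n ↔ IsWord l ∧ l.sum = n := by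
  induction n using Nat.strong_induction_on with
  | _ n ih =>
    intro l
    rcases n with _ | _ | _ | n
    · rcases l with _ | ⟨x, l⟩
      · simp [words, IsWord.nil]
      · simp only [words, Finset.mem_singleton, reduceCtorEq, false_iff, not_and, List.sum_cons]
        intro h
        rcases (isWord_cons.1 h).1 with h | h <;> omega
    · rcases l with _ | ⟨x, l⟩
      · simp [words]
      · simp only [words, Finset.notMem_empty, false_iff, not_and, List.sum_cons]
        intro h
        rcases (isWord_cons.1 h).1 with h | h <;> omega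
    · rcases l with _ | ⟨x, l⟩
      · simp [words]
      · simp only [words, Finset.mem_singleton, List.cons.injEq, List.sum_cons]
        constructor
        · rintro ⟨rfl, rfl⟩
          exact ⟨isWord_cons.2 ⟨Or.inl rfl, IsWord.nil⟩, rfl⟩
        · rintro ⟨h1, h2⟩
          obtain ⟨h3, h4⟩ := isWord_cons.1 h1
          rcases h3 with rfl | rfl
          · refine ⟨rfl, ?_⟩
            have h5 := (ih 0 (by omega) l).2 ⟨h4, by omega⟩
            simpa [words] using h5
          · omega
    · rcases l with _ | ⟨x, l⟩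
      · simp [words]
      · simp only [words, Finset.mem_union, Finset.mem_image, List.cons.injEq, List.sum_cons]
        constructor
        · rintro (⟨a, ha, rfl, rfl⟩ | ⟨a, ha, rfl, rfl⟩)
          · obtain ⟨h1, h2⟩ := (ih (n + 1) (by omega) a).1 ha
            exact ⟨isWord_cons.2 ⟨Or.inl rfl, h1⟩, by omega⟩
          · obtain ⟨h1, h2⟩ := (ih n (by omega) a).1 ha
            exact ⟨isWord_cons.2 ⟨Or.inr rfl, h1⟩, by omega⟩
        · rintro ⟨h1, h2⟩
          obtain ⟨h3, h4⟩ := isWord_cons.1 h1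
          rcases h3 with rfl | rfl
          · exact Or.inl ⟨l, (ih (n + 1) (by omega) l).2 ⟨h4, by omega⟩, rfl, rfl⟩
          · exact Or.inr ⟨l, (ih n (by omega) l).2 ⟨h4, by omega⟩, rfl, rfl⟩

lemma card_words (n : ℕ) : (words n).card = d n := by
  induction n using Nat.strong_induction_on with
  | _ n ih =>
    rcases n with _ | _ | _ | n
    · rfl
    · rfl
    · rfl
    · rw [words, Finset.card_union_of_disjoint, Finset.card_image_of_injective,
        Finset.card_image_of_injective, ih (n + 1) (by omega), ih n (by omega)]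
      · rfl
      · exact fun a b h => (List.cons.inj h).2
      · exact fun a b h => (List.cons.inj h).2
      · rw [Finset.disjoint_left]
        rintro a h1 h2
        obtain ⟨b, _, rfl⟩ := Finset.mem_image.1 h1
        obtain ⟨c, _, h3⟩ := Finset.mem_image.1 h2
        have := (List.cons.inj h3).1
        omega

/-! ### The words which avoid a factor -/

open Classical in
/-- The words of weight `n` which avoid the factor `u`. -/
noncomputable def avoid (u : List ℕ) (n : ℕ) : Finset (List ℕ) :=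
  (words n).filter (fun l => ¬ u <:+: l)

lemma avoid_card_le (u : List ℕ) (n : ℕ) : (avoid u n).card ≤ d n := by
  rw [← card_words]
  exact Finset.card_filter_le _ _

lemma avoid_card_lt {u : List ℕ} (hu : IsWord u) {n : ℕ} (hn : u.sum + 2 ≤ n) :
    (avoid u n).card + 1 ≤ d n := by
  obtain ⟨k, rfl⟩ := Nat.exists_eq_add_of_le hn
  have h1 : (words (k + 2)).Nonempty := by
    rw [← Finset.card_pos, card_words]
    exact d_pos k
  obtain ⟨v, hv⟩ := h1
  obtain ⟨hv1, hv2⟩ := (mem_words _ v).1 hv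
  have h2 : u ++ v ∈ words (u.sum + 2 + k) := by
    rw [mem_words]
    exact ⟨isWord_append.2 ⟨hu, hv1⟩, by rw [List.sum_append]; omega⟩
  rw [← card_words, Nat.succ_le_iff]
  refine Finset.card_lt_card ?_
  have h3 : avoid u (u.sum + 2 + k) ⊆ words (u.sum + 2 + k) := Finset.filter_subset _ _
  rw [Finset.ssubset_iff_of_subset h3]
  refine ⟨u ++ v, h2, fun h => ?_⟩
  exact (Finset.mem_filter.1 h).2 (List.prefix_append u v).isInfix

/-- Decomposition. -/
lemma exists_split (k : ℕ) : ∀ (n : ℕ) (l : List ℕ), IsWord l → l.sum = k + n + 3 →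
    ∃ p r : List ℕ, IsWord p ∧ IsWord r ∧ ((l = p ++ r ∧ p.sum = k + 1 ∧ r.sum = n + 2) ∨
      (l = p ++ r ∧ p.sum = k + 2 ∧ r.sum = n + 1) ∨ (l = p ++ 3 :: r ∧ p.sum = k ∧ r.sum = n)) := by
  induction k using Nat.strong_induction_on with
  | _ k ih =>
    intro n l hl hs
    rcases l with _ | ⟨x, l⟩
    · simp at hs
    obtain ⟨h1, h2⟩ := isWord_cons.1 hl
    rw [List.sum_cons] at hs
    have key : ∀ k', k = k' + x → ∃ p r : List ℕ, IsWord p ∧ IsWord r ∧
        ((x :: l = p ++ r ∧ p.sum = k + 1 ∧ r.sum = n + 2) ∨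
        (x :: l = p ++ r ∧ p.sum = k + 2 ∧ r.sum = n + 1) ∨
        (x :: l = p ++ 3 :: r ∧ p.sum = k ∧ r.sum = n)) := by
      intro k' hk'
      obtain ⟨p, r, hp, hr, h⟩ := ih k' (by rcases h1 with h | h <;> omega) n l h2 (by omega)
      refine ⟨x :: p, r, isWord_cons.2 ⟨h1, hp⟩, hr, ?_⟩
      simp only [List.cons_append, List.cons.injEq, true_and, List.sum_cons]
      rcases h with ⟨e, h3, h4⟩ | ⟨e, h3, h4⟩ | ⟨e, h3, h4⟩
      · exact Or.inl ⟨e, by omega, h4⟩
      · exact Or.inr (Or.inl ⟨e, by omega, h4⟩)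
      · exact Or.inr (Or.inr ⟨e, by omega, h4⟩)
    by_cases hx : x ≤ k
    · exact key (k - x) (by omega)
    · -- `x = k + 1`, `x = k + 2` or `x = 3`, `k = 0`
      rcases h1 with rfl | rfl
      · refine ⟨[2], l, isWord_cons.2 ⟨Or.inl rfl, IsWord.nil⟩, h2, ?_⟩
        rcases Nat.lt_or_ge k 1 with h | h
        · exact Or.inr (Or.inl ⟨rfl, by simp; omega, by omega⟩)
        · exact Or.inl ⟨rfl, by simp; omega, by omega⟩
      · rcases Nat.lt_or_ge k 1 with h | h
        · exact ⟨[], l, IsWord.nil, h2, Or.inr (Or.inr ⟨rfl, by simp; omega, by omega⟩)⟩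
        · refine ⟨[3], l, isWord_cons.2 ⟨Or.inr rfl, IsWord.nil⟩, h2, ?_⟩
          rcases Nat.lt_or_ge k 2 with h | h
          · exact Or.inr (Or.inl ⟨rfl, by simp; omega, by omega⟩)
          · exact Or.inl ⟨rfl, by simp; omega, by omega⟩

lemma avoid_rec (u : List ℕ) (k n : ℕ) : (avoid u (k + n + 3)).card ≤
    (avoid u (k + 1)).card * (avoid u (n + 2)).card +
    (avoid u (k + 2)).card * (avoid u (n + 1)).card +
    (avoid u k).card * (avoid u n).card := by
  classical
  have hsub : avoid u (k + n + 3) ⊆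
      (Finset.image₂ (fun p r => p ++ r) (avoid u (k + 1)) (avoid u (n + 2)) ∪
      Finset.image₂ (fun p r => p ++ r) (avoid u (k + 2)) (avoid u (n + 1))) ∪
      Finset.image₂ (fun p r => p ++ 3 :: r) (avoid u k) (avoid u n) := by
    intro l hl
    obtain ⟨h1, h2⟩ := Finset.mem_filter.1 hl
    obtain ⟨h3, h4⟩ := (mem_words _ l).1 h1
    obtain ⟨p, r, hp, hr, h⟩ := exists_split k n l h3 h4
    have mem (v : List ℕ) (j : ℕ) (hv : IsWord v) (hj : v.sum = j) (hi : v <:+: l) :
        v ∈ avoid u j :=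
      Finset.mem_filter.2 ⟨(mem_words _ v).2 ⟨hv, hj⟩, fun h => h2 (h.trans hi)⟩
    rw [Finset.mem_union, Finset.mem_union]
    rcases h with ⟨e, h5, h6⟩ | ⟨e, h5, h6⟩ | ⟨e, h5, h6⟩
    · refine Or.inl (Or.inl (Finset.mem_image₂.2 ⟨p, mem p _ hp h5 ?_, r, mem r _ hr h6 ?_, e.symm⟩))
      · exact e ▸ (List.prefix_append p r).isInfix
      · exact e ▸ (List.suffix_append p r).isInfix
    · refine Or.inl (Or.inr (Finset.mem_image₂.2 ⟨p, mem p _ hp h5 ?_, r, mem r _ hr h6 ?_, e.symm⟩))
      · exact e ▸ (List.prefix_append p r).isInfix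
      · exact e ▸ (List.suffix_append p r).isInfix
    · refine Or.inr (Finset.mem_image₂.2 ⟨p, mem p _ hp h5 ?_, r, mem r _ hr h6 ?_, e.symm⟩)
      · exact e ▸ (List.prefix_append p (3 :: r)).isInfix
      · rw [e]
        exact ((List.suffix_cons 3 r).trans (List.suffix_append p (3 :: r))).isInfix
  refine (Finset.card_le_card hsub).trans ?_
  refine (Finset.card_union_le _ _).trans (Nat.add_le_add ?_ (Finset.card_image₂_le _ _ _))
  exact (Finset.card_union_le _ _).trans
    (Nat.add_le_add (Finset.card_image₂_le _ _ _) (Finset.card_image₂_le _ _ _))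

lemma d_rec (k n : ℕ) : d (k + n + 3) = d (k + 1) * d (n + 2) + d (k + 2) * d (n + 1) + d k * d n := by
  induction n using Nat.strong_induction_on with
  | _ n ih =>
    rcases n with _ | _ | _ | n
    · have h : d (k + 0 + 3) = d (k + 1) + d k := rfl
      rw [h]
      simp [d]
    · have h : d (k + 1 + 3) = d (k + 2) + d (k + 1) := rfl
      rw [h]
      simp [d]
      ring
    · have h : d (k + 2 + 3) = d (k + 3) + d (k + 2) := rfl
      have h' : d (k + 3) = d (k + 1) + d k := rfl
      rw [h, h']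
      simp [d]
      ring
    · have h1 := ih n (by omega)
      have h2 := ih (n + 1) (by omega)
      have e0 : d (k + (n + 1 + 1 + 1) + 3) = d (k + (n + 1) + 3) + d (k + n + 3) := rfl
      have e1 : d (n + 1 + 1 + 1 + 2) = d (n + 1 + 2) + d (n + 2) := rfl
      have e2 : d (n + 1 + 1 + 1 + 1) = d (n + 1 + 1) + d (n + 1) := rfl
      have e3 : d (n + 1 + 1 + 1) = d (n + 1) + d n := rfl
      rw [e0, h1, h2, e1, e2, e3]
      ring

/-- Few words avoid a factor. -/
lemma avoid_small {u : List ℕ} (hu : IsWord u) : ∀ ε : ℝ, 0 < ε → ∃ N₀ : ℕ, ∀ n, N₀ ≤ n →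
    ((avoid u n).card : ℝ) ≤ ε * d n := by
  obtain ⟨k, hk⟩ : ∃ k, k = u.sum + 2 := ⟨_, rfl⟩
  obtain ⟨B, hB⟩ : ∃ B : ℝ, B = d k + d (k + 1) + d (k + 2) := ⟨_, rfl⟩
  have hB1 : 1 ≤ B := by
    have h1 : 0 < d (k + 2) := d_pos k
    have h2 : (1 : ℝ) ≤ d (k + 2) := by exact_mod_cast h1
    have h3 : (0 : ℝ) ≤ d k := Nat.cast_nonneg _
    have h4 : (0 : ℝ) ≤ d (k + 1) := Nat.cast_nonneg _
    rw [hB]
    linarith
  have hB0 : 0 < B := by linarith
  obtain ⟨θ, hθ⟩ : ∃ θ : ℝ, θ = 1 - 1 / B := ⟨_, rfl⟩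
  have hθ0 : 0 ≤ θ := by
    rw [hθ, sub_nonneg, div_le_one hB0]
    exact hB1
  have hθ1 : θ < 1 := by
    rw [hθ]
    have : 0 < 1 / B := by positivity
    linarith
  have hstep (j : ℕ) (hj : k ≤ j) (hjB : (d j : ℝ) ≤ B) : ((avoid u j).card : ℝ) ≤ θ * d j := by
    have h1 : (avoid u j).card + 1 ≤ d j := avoid_card_lt hu (by omega)
    have h2 : ((avoid u j).card : ℝ) + 1 ≤ d j := by exact_mod_cast h1
    have h3 : (d j : ℝ) / B ≤ 1 := (div_le_one hB0).2 hjB
    have h4 : θ * d j = d j - d j / B := by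
      rw [hθ]
      ring
    rw [h4]
    linarith
  have hd0 : ∀ j, (0 : ℝ) ≤ d j := fun j => Nat.cast_nonneg _
  have main (j : ℕ) : ∀ n, j * (k + 3) ≤ n → ((avoid u n).card : ℝ) ≤ θ ^ j * d n := by
    induction j with
    | zero =>
      intro n _
      rw [pow_zero, one_mul]
      exact_mod_cast avoid_card_le u n
    | succ j ih =>
      intro n hn
      have hmul : (j + 1) * (k + 3) = j * (k + 3) + (k + 3) := by ring
      rw [hmul] at hn
      obtain ⟨n', rfl⟩ : ∃ n', n = k + n' + 3 := ⟨n - k - 3, by omega⟩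
      have h0 : j * (k + 3) ≤ n' := by omega
      have h1 : ((avoid u (k + n' + 3)).card : ℝ) ≤
          (avoid u (k + 1)).card * (avoid u (n' + 2)).card +
          (avoid u (k + 2)).card * (avoid u (n' + 1)).card +
          (avoid u k).card * (avoid u n').card := by exact_mod_cast avoid_rec u k n'
      have h2 : (d (k + n' + 3) : ℝ) = d (k + 1) * d (n' + 2) + d (k + 2) * d (n' + 1) + d k * d n' := by
        exact_mod_cast d_rec k n'
      have g1 := mul_le_mul (hstep (k + 1) (by omega) (by rw [hB]; linarith [hd0 k, hd0 (k + 2)]))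
        (ih (n' + 2) (by omega)) (Nat.cast_nonneg _) (mul_nonneg hθ0 (hd0 _))
      have g2 := mul_le_mul (hstep (k + 2) (by omega) (by rw [hB]; linarith [hd0 k, hd0 (k + 1)]))
        (ih (n' + 1) (by omega)) (Nat.cast_nonneg _) (mul_nonneg hθ0 (hd0 _))
      have g3 := mul_le_mul (hstep k le_rfl (by rw [hB]; linarith [hd0 (k + 1), hd0 (k + 2)]))
        (ih n' (by omega)) (Nat.cast_nonneg _) (mul_nonneg hθ0 (hd0 _))
      rw [h2, pow_succ]
      calc ((avoid u (k + n' + 3)).card : ℝ) ≤ _ := h1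
        _ ≤ _ := add_le_add (add_le_add g1 g2) g3
        _ = _ := by ring
  intro ε hε
  obtain ⟨j, hj⟩ := exists_pow_lt_of_lt_one hε hθ1
  refine ⟨j * (k + 3), fun n hn => (main j n hn).trans ?_⟩
  exact mul_le_mul_of_nonneg_right hj.le (hd0 n)

end Pool.Agent.V7H32.MH
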