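import Pool.Agent.V7H32.MH.Sub
import Pool.Agent.V7H32.MH.Words

/-!
# Sufficient sets of words
-/

set_option autoImplicit false

open Module MvPolynomial Filter

namespace Pool.Agent.V7H32.MH

open Pool.Agent.V7H32.MZ

/-- The multiple zeta value of the list `l`. -/
noncomputable def val (l : List ℕ) : ℝ := mzv (fun i : Fin l.length => l.get i)

/-- The values of the words in the letters `2` and `3` form a basis of the space of all multiple
zeta values (Hoffman's conjecture, Q1). -/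
def HoffmanBasis : Prop :=
  LinearIndependent ℚ (fun l : {l : List ℕ // IsWord l} => val l) ∧
    Submodule.span ℚ (Set.range fun l : {l : List ℕ // IsWord l} => val l) = ⨆ N, Z N

/-- **Brown's theorem**: the multiple zeta values of weight `N` are linear combinations of the
values of the words of weight `N`. -/
def Brown : Prop :=
  ∀ N, Z N = Submodule.span ℚ {x : ℝ | ∃ l : List ℕ, IsWord l ∧ l.sum = N ∧ x = val l}

/-! ### Counting -/

/-- The weights at most `N` in the progression. -/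
def Ap (q a N : ℕ) : Finset ℕ := (Finset.range (N + 1)).filter (fun n => n ≡ a [MOD q])

lemma mem_Ap {q a N n : ℕ} : n ∈ Ap q a N ↔ n ≤ N ∧ n ≡ a [MOD q] := by
  rw [Ap, Finset.mem_filter, Finset.mem_range, Nat.lt_succ_iff]

/-- The number of the words of these weights. -/
def Dq (q a N : ℕ) : ℕ := ∑ n ∈ Ap q a N, d n

/-- The words of these weights. -/
def wordsAp (q a N : ℕ) : Finset (List ℕ) := (Ap q a N).biUnion words

lemma mem_wordsAp {q a N : ℕ} {l : List ℕ} :
    l ∈ wordsAp q a N ↔ IsWord l ∧ l.sum ≡ a [MOD q] ∧ l.sum ≤ N := by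
  rw [wordsAp, Finset.mem_biUnion]
  constructor
  · rintro ⟨n, hn, hl⟩
    obtain ⟨h1, rfl⟩ := (mem_words n l).1 hl
    exact ⟨h1, (mem_Ap.1 hn).2, (mem_Ap.1 hn).1⟩
  · rintro ⟨h1, h2, h3⟩
    exact ⟨l.sum, mem_Ap.2 ⟨h3, h2⟩, (mem_words _ l).2 ⟨h1, rfl⟩⟩

lemma card_wordsAp (q a N : ℕ) : (wordsAp q a N).card = Dq q a N := by
  rw [wordsAp, Finset.card_biUnion]
  · exact Finset.sum_congr rfl fun n _ => card_words n
  · intro n _ m _ hnm
    rw [Function.onFun, Finset.disjoint_left]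
    intro l h1 h2
    exact hnm (((mem_words n l).1 h1).2.symm.trans ((mem_words m l).1 h2).2)

lemma ncard_all (q a N : ℕ) :
    {l : List ℕ | IsWord l ∧ l.sum ≡ a [MOD q] ∧ l.sum ≤ N}.ncard = Dq q a N := by
  rw [← card_wordsAp, ← Set.ncard_coe_finset]
  congr 1
  ext l
  exact mem_wordsAp.symm

lemma Dq_mono {q a N N' : ℕ} (h : N ≤ N') : Dq q a N ≤ Dq q a N' := by
  refine Finset.sum_le_sum_of_subset fun n hn => ?_
  rw [mem_Ap] at hn ⊢
  exact ⟨hn.1.trans h, hn.2⟩

lemma Dq_ge {q : ℕ} (a : ℕ) (hq : 0 < q) (J : ℕ) : J ≤ Dq q a (2 + q * J) := by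
  induction J with
  | zero => exact Nat.zero_le _
  | succ J ih =>
    -- an element of the new window
    obtain ⟨n, h1, h2, h3⟩ : ∃ n, 2 + q * J < n ∧ n ≤ 2 + q * (J + 1) ∧ n ≡ a [MOD q] := by
      obtain ⟨s, hs⟩ : ∃ s, s = 3 + q * J := ⟨_, rfl⟩
      -- `s + ((a + q * s - s) % q)`
      refine ⟨s + (a + (q * s - s)) % q, by omega, ?_, ?_⟩
      · have := Nat.mod_lt (a + (q * s - s)) hq
        rw [Nat.mul_succ]
        omega
      · have h4 : s ≤ q * s := Nat.le_mul_of_pos_left s hq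
        have h5 : (s + (a + (q * s - s)) % q) ≡ s + (a + (q * s - s)) [MOD q] :=
          Nat.ModEq.add_left s (Nat.mod_modEq _ q)
        have h6 : s + (a + (q * s - s)) = a + q * s := by omega
        rw [h6] at h5
        refine h5.trans ?_
        have : a + q * s ≡ a + 0 [MOD q] :=
          Nat.ModEq.add_left a ((Nat.modEq_zero_iff_dvd).2 (dvd_mul_right q s))
        rwa [add_zero] at this
    have h4 : insert n (Ap q a (2 + q * J)) ⊆ Ap q a (2 + q * (J + 1)) := by
      intro k hk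
      rcases Finset.mem_insert.1 hk with rfl | hk
      · exact mem_Ap.2 ⟨h2, h3⟩
      · obtain ⟨h5, h6⟩ := mem_Ap.1 hk
        exact mem_Ap.2 ⟨by rw [Nat.mul_succ]; omega, h6⟩
    have h5 : n ∉ Ap q a (2 + q * J) := fun h => by
      have := (mem_Ap.1 h).1
      omega
    have h6 : 1 ≤ d n := by
      obtain ⟨k, rfl⟩ : ∃ k, n = k + 2 := ⟨n - 2, by omega⟩
      exact d_pos k
    calc J + 1 ≤ d n + Dq q a (2 + q * J) := by omega
      _ = ∑ k ∈ insert n (Ap q a (2 + q * J)), d k := by rw [Finset.sum_insert h5]; rfl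
      _ ≤ _ := Finset.sum_le_sum_of_subset h4

lemma Dq_growth {q m : ℕ} (a : ℕ) (hm : q ∣ m) (N : ℕ) :
    Dq q a (N + m) ≤ D (m + 1) + 2 ^ m * Dq q a N := by
  classical
  have hsub : Ap q a (N + m) ⊆ Finset.range (m + 2) ∪
      ((Ap q a N).filter (fun n => 2 ≤ n)).image (fun n => n + m) := by
    intro n hn
    obtain ⟨h1, h2⟩ := mem_Ap.1 hn
    rw [Finset.mem_union, Finset.mem_range, Finset.mem_image]
    rcases Nat.lt_or_ge n (m + 2) with h | h
    · exact Or.inl h
    · obtain ⟨k, rfl⟩ : ∃ k, n = k + m := ⟨n - m, by omega⟩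
      refine Or.inr ⟨k, Finset.mem_filter.2 ⟨mem_Ap.2 ⟨by omega, ?_⟩, by omega⟩, rfl⟩
      have h3 : k + m ≡ k + 0 [MOD q] := Nat.ModEq.add_left k ((Nat.modEq_zero_iff_dvd).2 hm)
      rw [add_zero] at h3
      exact h3.symm.trans h2
  refine (Finset.sum_le_sum_of_subset hsub).trans ?_
  have hu := Finset.sum_union_inter (s₁ := Finset.range (m + 2))
    (s₂ := ((Ap q a N).filter (fun n => 2 ≤ n)).image (fun n => n + m)) (f := d)
  refine (Nat.le_add_right _ _).trans (hu.le.trans ?_)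
  refine Nat.add_le_add le_rfl ?_
  rw [Finset.sum_image (fun x _ y _ h => Nat.add_right_cancel h), Dq, Finset.mul_sum]
  refine le_trans ?_ (Finset.sum_le_sum_of_subset (Finset.filter_subset (fun n => 2 ≤ n) (Ap q a N)))
  refine Finset.sum_le_sum fun n hn => ?_
  obtain ⟨k, rfl⟩ : ∃ k, n = k + 2 := ⟨n - 2, by have := (Finset.mem_filter.1 hn).2; omega⟩
  exact d_add_le k m

variable (M : Motivic)

/-- A relation produces many relations in each progression. -/
lemma many_relations {q : ℕ} (a : ℕ) (hq : 0 < q) {P : MvPolynomial M.ι ℚ} (hP : P ≠ 0)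
    (hP0 : aeval M.z P = 0) : ∃ m, q ∣ m ∧ ∀ N,
      finrank ℚ ((U M.w (Ap q a (N + m) : Set ℕ)).map (f M)) + Dq q a N ≤ Dq q a (N + m) := by
  obtain ⟨R, hR, ⟨Q, hQ⟩, hRq⟩ := exists_multiple M.w hq hP
  obtain ⟨m₀, hm₀⟩ := exists_bound M.w R _ hRq
  refine ⟨q * m₀, dvd_mul_right q m₀, fun N => ?_⟩
  have hR0 : aeval M.z R = 0 := by rw [hQ, map_mul, hP0, zero_mul]
  have h0 := finite_U M (Ap q a (N + q * m₀))
  have h1 : FiniteDimensional ℚ (U M.w (Ap q a (N + q * m₀) : Set ℕ) ⊓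
      LinearMap.ker (f M) : Submodule ℚ _) := Submodule.finiteDimensional_inf_left _ _
  have h2 := finrank_map_add M (U M.w (Ap q a (N + q * m₀) : Set ℕ))
  rw [finrank_U] at h2
  change _ = Dq q a (N + q * m₀) at h2
  rw [← h2]
  refine Nat.add_le_add_left ?_ _
  have h3 : Dq q a N = finrank ℚ (U M.w (Ap q a N : Set ℕ)) := (finrank_U M _).symm
  rw [h3]
  let μ : MvPolynomial M.ι ℚ →ₗ[ℚ] MvPolynomial M.ι ℚ := LinearMap.mulLeft ℚ R
  have hμ : Function.Injective μ := fun a b h => mul_left_cancel₀ hR h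
  rw [LinearEquiv.finrank_eq (Submodule.equivMapOfInjective μ hμ _)]
  refine Submodule.finrank_mono ?_
  rintro _ ⟨G, hG, rfl⟩
  constructor
  · refine U_mul M.w ?_ hm₀ hG
    rintro x ⟨hx1, hx2⟩ y hy
    rw [Finset.mem_coe, mem_Ap] at hy ⊢
    have h4 : m₀ ≤ q * m₀ := Nat.le_mul_of_pos_left m₀ hq
    refine ⟨by omega, ?_⟩
    have h5 : x + y ≡ 0 + y [MOD q] := Nat.ModEq.add_right y ((Nat.modEq_zero_iff_dvd).2 hx1)
    rw [zero_add] at h5
    exact h5.trans hy.2
  · change aeval M.z (R * G) = 0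
    rw [map_mul, hR0, zero_mul]

/-- The number of independent values is at most the dimension. -/
lemma ncard_le {P : Submodule ℚ ℝ} [FiniteDimensional ℚ P] {T : Set (List ℕ)} (hT : T.Finite)
    (hTP : ∀ l ∈ T, val l ∈ P) (h : LinearIndependent ℚ (fun l : T => val l)) :
    T.ncard ≤ finrank ℚ P := by
  have := hT.fintype
  have h1 : LinearIndependent ℚ (fun l : T => (⟨val l, hTP l l.2⟩ : P)) :=
    LinearIndependent.of_comp P.subtype h
  have h2 := h1.fintype_card_le_finrank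
  rwa [← Nat.card_eq_fintype_card, Nat.card_coe_set_eq] at h2

lemma val_mem (hB : Brown) {l : List ℕ} (hl : IsWord l) : val l ∈ Z l.sum := by
  rw [hB]
  exact Submodule.subset_span ⟨l, hl, rfl, rfl⟩

lemma finite_words_le (N : ℕ) : {l : List ℕ | IsWord l ∧ l.sum ≤ N}.Finite := by
  refine (Finset.finite_toSet (wordsAp 1 0 N)).subset fun l hl => ?_
  rw [Finset.mem_coe, mem_wordsAp]
  exact ⟨hl.1, Nat.modEq_one, hl.2⟩

lemma Z_le_ZZ {n N : ℕ} (h : n ≤ N) : Z n ≤ ZZ N :=
  le_iSup₂_of_le n (Finset.mem_range.2 (by omega)) le_rfl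

lemma span_words_le (hB : Brown) (N : ℕ) :
    Submodule.span ℚ (Set.range fun l : {l : List ℕ | IsWord l ∧ l.sum ≤ N} => val l) = ZZ N := by
  refine le_antisymm ?_ ?_
  · rw [Submodule.span_le]
    rintro _ ⟨l, rfl⟩
    exact Z_le_ZZ l.2.2 (val_mem hB l.2.1)
  · rw [ZZ]
    refine iSup₂_le fun n hn => ?_
    rw [hB, Submodule.span_le]
    rintro _ ⟨l, h1, h2, rfl⟩
    refine Submodule.subset_span ⟨⟨l, h1, ?_⟩, rfl⟩
    have := Finset.mem_range.1 hn
    omega

lemma D_eq_Dq (N : ℕ) : D N = Dq 1 0 N := by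
  rw [D, Dq, Ap, Finset.filter_true_of_mem]
  intro n _
  exact Nat.modEq_one

/-- Full dimension gives independence of all words up to this weight. -/
lemma independent_of_finrank (hB : Brown) {N : ℕ} (h : finrank ℚ (ZZ N) = D N) :
    LinearIndependent ℚ (fun l : {l : List ℕ | IsWord l ∧ l.sum ≤ N} => val l) := by
  have := (finite_words_le N).fintype
  rw [linearIndependent_iff_card_eq_finrank_span, Set.finrank, span_words_le hB, h,
    ← Nat.card_eq_fintype_card, Nat.card_coe_set_eq, D_eq_Dq, ← ncard_all]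
  congr 1
  ext l
  exact ⟨fun hl => ⟨hl.1, Nat.modEq_one, hl.2⟩, fun hl => ⟨hl.1, hl.2.2⟩⟩

include M in
lemma hoffman_of_zagier (hB : Brown) (h : Zagier) : HoffmanBasis := by
  have h1 := (zagier_iff_finrank M).1 h
  constructor
  · refine linearIndepOn_of_finite {l : List ℕ | IsWord l} fun t ht hfin => ?_
    obtain ⟨N, hN⟩ : ∃ N, ∀ l ∈ t, l.sum ≤ N := by
      obtain ⟨N, hN⟩ := (hfin.image List.sum).bddAbove
      exact ⟨N, fun l hl => hN ⟨l, hl, rfl⟩⟩
    have h2 : LinearIndepOn ℚ val {l : List ℕ | IsWord l ∧ l.sum ≤ N} :=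
      independent_of_finrank hB (h1 N)
    exact h2.mono fun l hl => ⟨ht hl, hN l hl⟩
  · refine le_antisymm ?_ (iSup_le fun N => ?_)
    · rw [Submodule.span_le]
      rintro _ ⟨l, rfl⟩
      exact (le_iSup Z l.1.sum) (val_mem hB l.2)
    · rw [hB, Submodule.span_le]
      rintro _ ⟨l, h3, _, rfl⟩
      exact Submodule.subset_span ⟨⟨l, h3⟩, rfl⟩

/-- **Sufficient sets of words.** -/
theorem sufficient (M : Motivic) (hB : Brown) {q : ℕ} (a : ℕ) (hq : 0 < q) (S : Set (List ℕ))
    (hS : ∀ l ∈ S, IsWord l ∧ l.sum ≡ a [MOD q])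
    (hd : ∀ ε : ℝ, 0 < ε → ∃ᶠ N in atTop,
      (1 - ε) * {l : List ℕ | IsWord l ∧ l.sum ≡ a [MOD q] ∧ l.sum ≤ N}.ncard ≤
        {l ∈ S | l.sum ≤ N}.ncard) :
    HoffmanBasis ↔ LinearIndependent ℚ (fun l : S => val l) := by
  constructor
  · intro h
    have h1 : LinearIndepOn ℚ val {l : List ℕ | IsWord l} := h.1
    exact h1.mono fun l hl => (hS l hl).1
  · intro hLI
    refine hoffman_of_zagier M hB ((zagier_iff_injective M).2 ?_)
    by_contra hcon
    push Not at hcon
    obtain ⟨P, hP0, hP⟩ := hcon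
    obtain ⟨m, hm, hrel⟩ := many_relations M a hq hP hP0
    obtain ⟨C, hC⟩ : ∃ C : ℝ, C = D (m + 1) + 2 ^ m := ⟨_, rfl⟩
    have hC0 : 0 < C := by
      rw [hC]
      positivity
    obtain ⟨N', hN', h1⟩ := (hd (1 / (2 * C)) (by positivity)).forall_exists_of_atTop (m + (2 + q))
    obtain ⟨N, rfl⟩ : ∃ N, N' = N + m := ⟨N' - m, by omega⟩
    rw [ncard_all] at h1
    have h2 : {l ∈ S | l.sum ≤ N + m}.ncard ≤
        finrank ℚ ((U M.w (Ap q a (N + m) : Set ℕ)).map (f M)) := by
      have h0 := finite_U M (Ap q a (N + m))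
      refine ncard_le ((finite_words_le (N + m)).subset fun l hl => ⟨(hS l hl.1).1, hl.2⟩) ?_ ?_
      · intro l hl
        refine Z_le_map M ?_ (val_mem hB (hS l hl.1).1)
        rw [Finset.mem_coe, mem_Ap]
        exact ⟨hl.2, (hS l hl.1).2⟩
      · have h3 : LinearIndepOn ℚ val S := hLI
        exact h3.mono fun l hl => hl.1
    have h3 : ({l ∈ S | l.sum ≤ N + m}.ncard : ℝ) + Dq q a N ≤ Dq q a (N + m) := by
      exact_mod_cast (Nat.add_le_add_right h2 _).trans (hrel N)
    have h4 : (1 : ℝ) ≤ Dq q a N := by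
      have := (Dq_ge a hq 1).trans (Dq_mono (a := a) (show 2 + q * 1 ≤ N by omega))
      exact_mod_cast this
    have h5 : (Dq q a (N + m) : ℝ) ≤ D (m + 1) + 2 ^ m * Dq q a N := by
      exact_mod_cast Dq_growth a hm N
    have h6 : (Dq q a (N + m) : ℝ) ≤ C * Dq q a N := by
      rw [hC, add_mul]
      have : (D (m + 1) : ℝ) ≤ D (m + 1) * Dq q a N :=
        le_mul_of_one_le_right (Nat.cast_nonneg _) h4
      linarith
    have h7 : (Dq q a (N + m) : ℝ) / C ≤ Dq q a N := by
      rw [div_le_iff₀ hC0]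
      linarith
    have h8 : (1 : ℝ) / (2 * C) * Dq q a (N + m) = (Dq q a (N + m) : ℝ) / C / 2 := by
      field_simp
    have h9 : (0 : ℝ) < (Dq q a (N + m) : ℝ) / C := by
      have : (1 : ℝ) ≤ Dq q a (N + m) := h4.trans (by exact_mod_cast Dq_mono (by omega))
      positivity
    nlinarith

/-! ### One weight -/

lemma span_words_eq (hB : Brown) (N : ℕ) :
    Submodule.span ℚ (Set.range fun l : {l : List ℕ | IsWord l ∧ l.sum = N} => val l) = Z N := by
  rw [hB]
  congr 1
  ext x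
  constructor
  · rintro ⟨l, rfl⟩
    exact ⟨l, l.2.1, l.2.2, rfl⟩
  · rintro ⟨l, h1, h2, rfl⟩
    exact ⟨⟨l, h1, h2⟩, rfl⟩

lemma ncard_eq (N : ℕ) : {l : List ℕ | IsWord l ∧ l.sum = N}.ncard = d N := by
  rw [← card_words, ← Set.ncard_coe_finset]
  congr 1
  ext l
  exact (mem_words N l).symm

lemma finite_words_eq (N : ℕ) : {l : List ℕ | IsWord l ∧ l.sum = N}.Finite :=
  (finite_words_le N).subset fun _ hl => ⟨hl.1, hl.2.le⟩

/-- **The homogeneous version.** -/
theorem sufficient_homogeneous (M : Motivic) (hB : Brown) (S : Set (List ℕ))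
    (hS : ∀ l ∈ S, IsWord l)
    (hd : ∀ ε : ℝ, 0 < ε → ∃ᶠ N in atTop, (1 - ε) * d N ≤ {l ∈ S | l.sum = N}.ncard) :
    (∀ N, LinearIndependent ℚ (fun l : {l : List ℕ | IsWord l ∧ l.sum = N} => val l)) ↔
      ∀ N, LinearIndependent ℚ (fun l : {l : List ℕ | l ∈ S ∧ l.sum = N} => val l) := by
  constructor
  · intro h N
    have h1 : LinearIndepOn ℚ val {l : List ℕ | IsWord l ∧ l.sum = N} := h N
    exact h1.mono fun l hl => ⟨hS l hl.1, hl.2⟩
  · intro h
    have h1 : DimensionHalf := by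
      rw [dimensionHalf_iff_frequently M]
      intro ε hε
      refine (hd ε hε).mono fun N hN => hN.trans ?_
      have h2 := finite_Z M N
      have h3 : {l ∈ S | l.sum = N}.ncard ≤ finrank ℚ (Z N) := by
        refine ncard_le ((finite_words_eq N).subset fun l hl => ⟨hS l hl.1, hl.2⟩) ?_ (h N)
        rintro l ⟨hl, rfl⟩
        exact val_mem hB (hS l hl)
      exact_mod_cast h3
    intro N
    have := (finite_words_eq N).fintype
    rw [linearIndependent_iff_card_eq_finrank_span, Set.finrank, span_words_eq hB, h1 N,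
      ← Nat.card_eq_fintype_card, Nat.card_coe_set_eq, ncard_eq]

/-! ### One level -/

lemma W_eq_U {ι : Type} (w : ι → ℕ) (N : ℕ) : W w N = U w {n | n ≤ N} := by
  ext P
  constructor
  · intro h m hm
    by_contra hN
    have h1 := h (Finsupp.weight w m) (not_le.1 hN)
    have h2 := comp_coeff w P (Finsupp.weight w m) m
    rw [h1, if_pos rfl, coeff_zero] at h2
    exact hm h2.symm
  · intro h n hn
    ext m
    rw [comp_coeff, coeff_zero]
    split_ifs with h1
    · by_contra h2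
      have := h m h2
      rw [Set.mem_ofPred_eq] at this
      omega
    · rfl

include M in
lemma level {m N : ℕ} (hm : m ≤ N) (h : finrank ℚ (ZZ m) ≠ D m) :
    finrank ℚ (ZZ N) + D (N - m) ≤ D N := by
  obtain ⟨k, rfl⟩ := Nat.exists_eq_add_of_le' hm
  rw [Nat.add_sub_cancel]
  have hker : W M.w m ⊓ LinearMap.ker (f M) ≠ ⊥ := by
    intro h0
    have := finite_W M m
    have h1 := finrank_map_add M (W M.w m)
    rw [map_W, h0, finrank_bot, finrank_W, add_zero] at h1
    exact h h1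
  obtain ⟨F, hF, hF0⟩ := Submodule.exists_mem_ne_zero_of_ne_bot hker
  have h00 := finite_W M (k + m)
  have h0 : FiniteDimensional ℚ (W M.w (k + m) ⊓ LinearMap.ker (f M) : Submodule ℚ _) :=
    Submodule.finiteDimensional_inf_left _ _
  rw [← finrank_W M (k + m), ← finrank_map_add M (W M.w (k + m)), map_W]
  refine Nat.add_le_add_left ?_ _
  rw [← finrank_W M k]
  let μ : MvPolynomial M.ι ℚ →ₗ[ℚ] MvPolynomial M.ι ℚ := LinearMap.mulLeft ℚ F
  have hμ : Function.Injective μ := fun a b h => mul_left_cancel₀ hF0 h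
  rw [LinearEquiv.finrank_eq (Submodule.equivMapOfInjective μ hμ (W M.w k))]
  refine Submodule.finrank_mono ?_
  rintro _ ⟨Q, hQ, rfl⟩
  constructor
  · change F * Q ∈ W M.w (k + m)
    have h1 : F ∈ W M.w m := hF.1
    rw [SetLike.mem_coe] at hQ
    rw [W_eq_U] at hQ h1 ⊢
    refine U_mul M.w (fun x hx y hy => ?_) h1 hQ
    rw [Set.mem_ofPred_eq] at hx hy ⊢
    omega
  · change MvPolynomial.aeval M.z (F * Q) = 0
    rw [map_mul, show MvPolynomial.aeval M.z F = 0 from hF.2, zero_mul]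

/-- **The finite version.** -/
theorem one_level (M : Motivic) (hB : Brown) {m N : ℕ} (hm : m ≤ N) (T : Set (List ℕ))
    (hT : ∀ l ∈ T, IsWord l ∧ l.sum ≤ N) (hcard : D N < T.ncard + D (N - m))
    (h : LinearIndependent ℚ (fun l : T => val l)) :
    LinearIndependent ℚ (fun l : {l : List ℕ | IsWord l ∧ l.sum ≤ m} => val l) := by
  refine independent_of_finrank hB ?_
  by_contra hcon
  have h1 := level M hm hcon
  have h2 : T.ncard ≤ finrank ℚ (ZZ N) := by
    have h0 : FiniteDimensional ℚ (ZZ N) := by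
      rw [← map_W M]
      have := finite_W M N
      infer_instance
    refine ncard_le ((finite_words_le N).subset hT) (fun l hl => ?_) h
    exact Z_le_ZZ (hT l hl).2 (val_mem hB (hT l hl).1)
  omega

/-! ### Factors -/

/-- **Words with a given factor.** -/
theorem factor (M : Motivic) (hB : Brown) {u : List ℕ} (hu : IsWord u) {q : ℕ} (a : ℕ)
    (hq : 0 < q) : HoffmanBasis ↔ LinearIndependent ℚ
      (fun l : {l : List ℕ | IsWord l ∧ u <:+: l ∧ l.sum ≡ a [MOD q]} => val l) := by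
  classical
  refine sufficient M hB a hq {l : List ℕ | IsWord l ∧ u <:+: l ∧ l.sum ≡ a [MOD q]}
    (fun l hl => ⟨hl.1, hl.2.2⟩) fun ε hε => ?_
  obtain ⟨N₀, hN₀⟩ := avoid_small hu (ε / 2) (by positivity)
  obtain ⟨J, hJ⟩ := exists_nat_gt (2 * D N₀ / ε)
  refine Eventually.frequently (eventually_atTop.2 ⟨2 + q * J, fun N hN => ?_⟩)
  rw [ncard_all]
  obtain ⟨T, hT⟩ : ∃ T : Set (List ℕ), T = {l ∈ {l : List ℕ | IsWord l ∧ u <:+: l ∧
    l.sum ≡ a [MOD q]} | l.sum ≤ N} := ⟨_, rfl⟩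
  rw [← hT]
  have hfin : T.Finite := (finite_words_le N).subset fun l hl => by
    rw [hT] at hl
    exact ⟨hl.1.1, hl.2⟩
  have h1 : Dq q a N ≤ T.ncard + ∑ n ∈ Ap q a N, (avoid u n).card := by
    rw [← card_wordsAp, Set.ncard_eq_toFinset_card T hfin]
    refine le_trans (Finset.card_le_card (t := hfin.toFinset ∪ (Ap q a N).biUnion (avoid u)) ?_)
      ((Finset.card_union_le _ _).trans (Nat.add_le_add_left Finset.card_biUnion_le _))
    intro l hl
    obtain ⟨h2, h3, h4⟩ := mem_wordsAp.1 hl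
    rw [Finset.mem_union]
    by_cases h5 : u <:+: l
    · left
      rw [Set.Finite.mem_toFinset, hT]
      exact ⟨⟨h2, h5, h3⟩, h4⟩
    · right
      rw [Finset.mem_biUnion]
      exact ⟨l.sum, mem_Ap.2 ⟨h4, h3⟩, Finset.mem_filter.2 ⟨(mem_words _ l).2 ⟨h2, rfl⟩, h5⟩⟩
  have h2 : ((∑ n ∈ Ap q a N, (avoid u n).card : ℕ) : ℝ) ≤ D N₀ + ε / 2 * Dq q a N := by
    rw [← Finset.sum_filter_add_sum_filter_not (Ap q a N) (fun n => n < N₀)]
    push_cast
    refine add_le_add ?_ ?_
    · have h3 : (∑ n ∈ (Ap q a N).filter (fun n => n < N₀), (avoid u n).card) ≤ D N₀ := by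
        refine (Finset.sum_le_sum fun n _ => avoid_card_le u n).trans ?_
        refine Finset.sum_le_sum_of_subset fun n hn => ?_
        have := (Finset.mem_filter.1 hn).2
        rw [Finset.mem_range]
        omega
      exact_mod_cast h3
    · have h3 : (∑ n ∈ (Ap q a N).filter (fun n => ¬ n < N₀), ((avoid u n).card : ℝ)) ≤
          ∑ n ∈ (Ap q a N).filter (fun n => ¬ n < N₀), ε / 2 * d n :=
        Finset.sum_le_sum fun n hn => hN₀ n (not_lt.1 (Finset.mem_filter.1 hn).2)
      refine h3.trans ?_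
      rw [Dq, Nat.cast_sum, Finset.mul_sum]
      exact Finset.sum_le_sum_of_subset_of_nonneg (Finset.filter_subset _ _)
        fun n _ _ => by positivity
  have h3 : (J : ℝ) ≤ Dq q a N := by exact_mod_cast (Dq_ge a hq J).trans (Dq_mono hN)
  have h4 : (D N₀ : ℝ) ≤ ε / 2 * Dq q a N := by
    rw [div_lt_iff₀ hε] at hJ
    nlinarith
  have h5 : (Dq q a N : ℝ) ≤ T.ncard + (∑ n ∈ Ap q a N, (avoid u n).card : ℕ) := by
    exact_mod_cast h1
  linarith

/-- **Words with a given factor, one weight at a time.** -/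
theorem factor_homogeneous (M : Motivic) (hB : Brown) {u : List ℕ} (hu : IsWord u) (A : Set ℕ)
    (hA : A.Infinite) :
    (∀ N, LinearIndependent ℚ (fun l : {l : List ℕ | IsWord l ∧ l.sum = N} => val l)) ↔
      ∀ N ∈ A, LinearIndependent ℚ
        (fun l : {l : List ℕ | IsWord l ∧ u <:+: l ∧ l.sum = N} => val l) := by
  classical
  constructor
  · intro h N _
    have h1 : LinearIndepOn ℚ val {l : List ℕ | IsWord l ∧ l.sum = N} := h N
    exact h1.mono fun l hl => ⟨hl.1, hl.2.2⟩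
  · intro h
    refine (sufficient_homogeneous M hB {l : List ℕ | IsWord l ∧ u <:+: l ∧ l.sum ∈ A}
      (fun l hl => hl.1) fun ε hε => ?_).2 fun N => ?_
    · obtain ⟨N₀, hN₀⟩ := avoid_small hu ε hε
      rw [frequently_atTop]
      intro N₁
      obtain ⟨N, hN, hN'⟩ := hA.exists_gt (max N₀ N₁)
      refine ⟨N, (le_max_right _ _).trans hN'.le, ?_⟩
      have h1 := hN₀ N ((le_max_left _ _).trans hN'.le)
      obtain ⟨T, hT⟩ : ∃ T : Set (List ℕ), T = {l ∈ {l : List ℕ | IsWord l ∧ u <:+: l ∧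
        l.sum ∈ A} | l.sum = N} := ⟨_, rfl⟩
      rw [← hT]
      have hfin : T.Finite := (finite_words_eq N).subset fun l hl => by
        rw [hT] at hl
        exact ⟨hl.1.1, hl.2⟩
      have h2 : d N ≤ T.ncard + (avoid u N).card := by
        rw [← card_words, Set.ncard_eq_toFinset_card T hfin]
        refine le_trans (Finset.card_le_card (t := hfin.toFinset ∪ avoid u N) ?_)
          (Finset.card_union_le _ _)
        intro l hl
        obtain ⟨h2, h3⟩ := (mem_words _ l).1 hl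
        rw [Finset.mem_union]
        by_cases h5 : u <:+: l
        · left
          rw [Set.Finite.mem_toFinset, hT]
          exact ⟨⟨h2, h5, h3 ▸ hN⟩, h3⟩
        · exact Or.inr (Finset.mem_filter.2 ⟨hl, h5⟩)
      have h3 : (d N : ℝ) ≤ T.ncard + (avoid u N).card := by exact_mod_cast h2
      linarith
    · by_cases hN : N ∈ A
      · have h1 : LinearIndepOn ℚ val {l : List ℕ | IsWord l ∧ u <:+: l ∧ l.sum = N} := h N hN
        exact h1.mono fun l hl => ⟨hl.1.1, hl.1.2.1, hl.2⟩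
      · have h1 : {l : List ℕ | l ∈ {l : List ℕ | IsWord l ∧ u <:+: l ∧ l.sum ∈ A} ∧
            l.sum = N} = ∅ := by
          rw [Set.eq_empty_iff_forall_notMem]
          rintro l ⟨hl, rfl⟩
          exact hN hl.2.2
        rw [h1]
        exact linearIndependent_empty_type

end Pool.Agent.V7H32.MH
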