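import Pool.Agent.V7H32.MZ.Main

/-!
# Polynomials with prescribed weights
-/

set_option autoImplicit false

open MvPolynomial Module

namespace Pool.Agent.V7H32.MH

open Pool.Agent.V7H32.MZ

section General

variable {ι : Type} (w : ι → ℕ)

/-- The polynomials all of whose monomials have weight in `A`. -/
def U (A : Set ℕ) : Submodule ℚ (MvPolynomial ι ℚ) where
  carrier := {P | ∀ m, coeff m P ≠ 0 → Finsupp.weight w m ∈ A}
  zero_mem' := fun m hm => absurd (coeff_zero m) hm
  add_mem' := fun {P Q} hP hQ m hm => by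
    rw [coeff_add] at hm
    by_cases h : coeff m P = 0
    · exact hQ m fun h' => hm (by rw [h, h', add_zero])
    · exact hP m h
  smul_mem' := fun c P hP m hm => by
    refine hP m fun h => hm ?_
    rw [coeff_smul, h, smul_zero]

lemma mem_U {A : Set ℕ} {P : MvPolynomial ι ℚ} :
    P ∈ U w A ↔ ∀ m, coeff m P ≠ 0 → Finsupp.weight w m ∈ A := Iff.rfl

lemma V_eq_U (n : ℕ) : V w n = U w {n} := by
  ext P
  rw [mem_weightedHomogeneousSubmodule, mem_U]
  rfl

lemma U_mono {A A' : Set ℕ} (h : A ⊆ A') : U w A ≤ U w A' := fun _ hP m hm => h (hP m hm)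

lemma U_mul {A A' A'' : Set ℕ} (h : ∀ a ∈ A, ∀ b ∈ A', a + b ∈ A'') {P Q : MvPolynomial ι ℚ}
    (hP : P ∈ U w A) (hQ : Q ∈ U w A') : P * Q ∈ U w A'' := by
  classical
  intro m hm
  rw [coeff_mul] at hm
  obtain ⟨x, hx, hx'⟩ := Finset.exists_ne_zero_of_sum_ne_zero hm
  have h1 := Finset.HasAntidiagonal.mem_antidiagonal.1 hx
  rw [← h1, map_add]
  exact h _ (hP _ (left_ne_zero_of_mul hx')) _ (hQ _ (right_ne_zero_of_mul hx'))

lemma U_empty : U w ∅ = ⊥ := by
  rw [eq_bot_iff]
  intro P hP
  rw [Submodule.mem_bot]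
  ext m
  by_contra hm
  exact hP m (by simpa using hm)

lemma comp_coeff (P : MvPolynomial ι ℚ) (n : ℕ) (m : ι →₀ ℕ) :
    coeff m (weightedHomogeneousComponent w n P) = if Finsupp.weight w m = n then coeff m P else 0 := by
  classical
  exact coeff_weightedHomogeneousComponent n P m

lemma U_insert (n : ℕ) (A : Set ℕ) : U w (insert n A) = U w A ⊔ V w n := by
  refine le_antisymm (fun P hP => ?_) (sup_le (U_mono w (Set.subset_insert n A)) ?_)
  · rw [← sub_add_cancel P (weightedHomogeneousComponent w n P)]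
    refine Submodule.add_mem_sup ?_ (weightedHomogeneousComponent_mem w P n)
    intro m hm
    rw [coeff_sub, comp_coeff] at hm
    by_cases h : Finsupp.weight w m = n
    · rw [if_pos h, sub_self] at hm
      exact absurd rfl hm
    · rw [if_neg h, sub_zero] at hm
      exact (hP m hm).resolve_left h
  · rw [V_eq_U]
    exact U_mono w (by
      rintro _ rfl
      exact Set.mem_insert _ _)

lemma U_inf {n : ℕ} {A : Set ℕ} (h : n ∉ A) : U w A ⊓ V w n = ⊥ := by
  rw [eq_bot_iff]
  rintro P ⟨h1, h2⟩
  rw [V_eq_U] at h2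
  rw [Submodule.mem_bot]
  ext m
  by_contra hm
  have h3 := h1 m (by simpa using hm)
  have h4 := h2 m (by simpa using hm)
  rw [Set.mem_singleton_iff] at h4
  exact h (h4 ▸ h3)

/-- The subalgebra of the weights divisible by `q`. -/
def Sq (q : ℕ) : Subalgebra ℚ (MvPolynomial ι ℚ) where
  carrier := {P | ∀ m, coeff m P ≠ 0 → q ∣ Finsupp.weight w m}
  mul_mem' := fun {P Q} hP hQ => U_mul w (A := {n | q ∣ n}) (A' := {n | q ∣ n}) (A'' := {n | q ∣ n})
    (fun a ha b hb => dvd_add ha hb) hP hQ
  add_mem' := fun {P Q} hP hQ => (U w {n | q ∣ n}).add_mem hP hQ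
  algebraMap_mem' := fun r m hm => by
    classical
    rw [algebraMap_eq, coeff_C] at hm
    split_ifs at hm with h
    · rw [← h, map_zero]
      exact dvd_zero q
    · exact absurd rfl hm

lemma isIntegral_Sq {q : ℕ} (hq : 0 < q) (P : MvPolynomial ι ℚ) : IsIntegral (Sq w q) P := by
  induction P using MvPolynomial.induction_on with
  | C a => exact isIntegral_algebraMap (R := Sq w q) (x := algebraMap ℚ (Sq w q) a)
  | add P Q hP hQ => exact hP.add hQ
  | mul_X P i hP =>
    refine hP.mul ?_
    refine IsIntegral.of_pow hq ?_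
    have h : (X i : MvPolynomial ι ℚ) ^ q ∈ Sq w q := by
      classical
      intro m hm
      rw [coeff_X_pow] at hm
      split_ifs at hm with h
      · rw [← h, Finsupp.weight_single, smul_eq_mul]
        exact dvd_mul_right q (w i)
      · exact absurd rfl hm
    exact isIntegral_algebraMap (R := Sq w q) (x := ⟨_, h⟩)

/-- Every nonzero polynomial divides a nonzero polynomial with weights divisible by `q`. -/
lemma exists_multiple {q : ℕ} (hq : 0 < q) {F : MvPolynomial ι ℚ} (hF : F ≠ 0) :
    ∃ R : MvPolynomial ι ℚ, R ≠ 0 ∧ F ∣ R ∧ R ∈ U w {n | q ∣ n} := by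
  have h1 : IsAlgebraic (Sq w q) F := (isIntegral_Sq w hq F).isAlgebraic
  obtain ⟨r, hr, hd⟩ := h1.exists_nonzero_dvd (mem_nonZeroDivisors_of_ne_zero hF)
  exact ⟨r, fun h => hr (Subtype.ext h), hd, r.2⟩

lemma exists_bound (P : MvPolynomial ι ℚ) (A : Set ℕ) (hP : P ∈ U w A) :
    ∃ m, P ∈ U w {n | n ∈ A ∧ n ≤ m} := by
  classical
  refine ⟨P.support.sup (fun m => Finsupp.weight w m), fun m hm => ⟨hP m hm, ?_⟩⟩
  exact Finset.le_sup (f := fun m => Finsupp.weight w m) (mem_support_iff.2 hm)

end General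

variable (M : Motivic)

lemma finite_U (A : Finset ℕ) : FiniteDimensional ℚ (U M.w (A : Set ℕ)) := by
  classical
  induction A using Finset.induction_on with
  | empty =>
    rw [Finset.coe_empty, U_empty]
    infer_instance
  | insert n A _ ih =>
    rw [Finset.coe_insert, U_insert]
    have := finite_V M n
    exact Submodule.finiteDimensional_sup _ _

lemma finrank_U (A : Finset ℕ) : finrank ℚ (U M.w (A : Set ℕ)) = ∑ n ∈ A, d n := by
  classical
  induction A using Finset.induction_on with
  | empty =>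
    rw [Finset.coe_empty, U_empty, finrank_bot, Finset.sum_empty]
  | insert n A hn ih =>
    have := finite_V M n
    have := finite_U M A
    have h := Submodule.finrank_sup_add_finrank_inf_eq (U M.w (A : Set ℕ)) (V M.w n)
    rw [← U_insert, U_inf M.w (by simpa using hn), finrank_bot, ih, finrank_V] at h
    rw [Finset.coe_insert, Finset.sum_insert hn]
    omega

lemma Z_le_map {A : Set ℕ} {n : ℕ} (hn : n ∈ A) : Z n ≤ (U M.w A).map (f M) := by
  rw [← M.image n]
  refine Submodule.map_mono ?_
  change V M.w n ≤ _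
  rw [V_eq_U]
  exact U_mono M.w (by
    rintro _ rfl
    exact hn)

end Pool.Agent.V7H32.MH
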